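import Pool.Agent.Q95.MO.Deg

/-!
# Project MO, job CYC: every vertex of the cactus is determined by finitely many edges
-/

set_option autoImplicit false

namespace Pool.Agent.Q95.MO

open Pool.Agent.Q215.Mo

/-- the pairs of the cycle number `k` -/
def ce (k : ℕ) : Finset (ℕ × ℕ) :=
  (Finset.Ico (2 ^ k) (2 ^ (k + 1) - 1)).image (fun n => (n, n + 1)) ∪
    {(hk k, 2 ^ k), (hk k, 2 ^ (k + 1) - 1)}

theorem mem_ce {k : ℕ} {p : ℕ × ℕ} : p ∈ ce k ↔ (2 ^ k ≤ p.1 ∧ p.2 = p.1 + 1 ∧ p.2 < 2 ^ (k + 1)) ∨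
    (p.1 = hk k ∧ (p.2 = 2 ^ k ∨ p.2 + 1 = 2 ^ (k + 1))) := by
  unfold ce
  have h0 : 0 < 2 ^ (k + 1) := by positivity
  rw [Finset.mem_union, Finset.mem_image, Finset.mem_insert, Finset.mem_singleton]
  obtain ⟨x, y⟩ := p
  constructor
  · rintro (⟨n, hn, h⟩ | h | h)
    · rw [Finset.mem_Ico] at hn
      simp only [Prod.mk.injEq] at h
      left
      show 2 ^ k ≤ x ∧ y = x + 1 ∧ y < 2 ^ (k + 1)
      omega
    · simp only [Prod.mk.injEq] at h
      exact Or.inr ⟨h.1, Or.inl h.2⟩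
    · simp only [Prod.mk.injEq] at h
      refine Or.inr ⟨h.1, Or.inr ?_⟩
      show y + 1 = 2 ^ (k + 1)
      omega
  · rintro (⟨h1, h2, h3⟩ | ⟨h1, h2 | h2⟩)
    · have h1' : 2 ^ k ≤ x := h1
      have h2' : y = x + 1 := h2
      have h3' : y < 2 ^ (k + 1) := h3
      left
      refine ⟨x, Finset.mem_Ico.2 ⟨h1', by omega⟩, ?_⟩
      rw [h2']
    · right; left
      simp only [Prod.mk.injEq]
      exact ⟨h1, h2⟩
    · right; right
      simp only [Prod.mk.injEq]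
      have h2' : y + 1 = 2 ^ (k + 1) := h2
      exact ⟨h1, by omega⟩

theorem ce_Cb {k : ℕ} (hk2 : 2 ≤ k) {p : ℕ × ℕ} (hp : p ∈ ce k) : Cb p.1 p.2 :=
  ⟨k, hk2, mem_ce.1 hp⟩

theorem ce_lt {k : ℕ} {p : ℕ × ℕ} (hp : p ∈ ce k) : k < p.2 := by
  have h0 : k < 2 ^ k := Nat.lt_two_pow_self
  have h9 := two_pow_succ' k
  rcases mem_ce.1 hp with h | h
  · omega
  · rcases h.2 with h1 | h1 <;> omega

theorem card_cyc (k : ℕ) : (cyc k).card = 2 ^ k + 1 := by
  unfold cyc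
  rw [Finset.card_insert_of_notMem, Nat.card_Ico]
  · have := two_pow_succ' k
    omega
  · rw [Finset.mem_Ico]
    have := hk_lt k
    omega

/-- two neighbours -/
theorem two_nb {k x : ℕ} (hk2 : 2 ≤ k) (hx : x ∈ cyc k) : ∃ y ∈ cyc k, ∃ y' ∈ cyc k, y ≠ y' ∧
    ((x, y) ∈ ce k ∨ (y, x) ∈ ce k) ∧ ((x, y') ∈ ce k ∨ (y', x) ∈ ce k) := by
  have h4 : 4 ≤ 2 ^ k := by
    have := Nat.pow_le_pow_right (show 0 < 2 by norm_num) hk2
    simpa using this
  have h9 := two_pow_succ' k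
  have hlt := hk_lt k
  have hm : ∀ z, 2 ^ k ≤ z → z < 2 ^ (k + 1) → z ∈ cyc k := fun z h1 h2 =>
    Finset.mem_insert_of_mem (Finset.mem_Ico.2 ⟨h1, h2⟩)
  have hh : hk k ∈ cyc k := Finset.mem_insert_self _ _
  unfold cyc at hx
  rw [Finset.mem_insert, Finset.mem_Ico] at hx
  rcases hx with rfl | ⟨h1, h2⟩
  · refine ⟨2 ^ k, hm _ le_rfl (by omega), 2 ^ (k + 1) - 1, hm _ (by omega) (by omega), by omega,
      Or.inl (mem_ce.2 (Or.inr ⟨rfl, Or.inl rfl⟩)), Or.inl (mem_ce.2 (Or.inr ⟨rfl, Or.inr ?_⟩))⟩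
    show 2 ^ (k + 1) - 1 + 1 = 2 ^ (k + 1)
    omega
  · rcases Nat.eq_or_lt_of_le h1 with h3 | h3
    · refine ⟨hk k, hh, x + 1, hm _ (by omega) (by omega), by omega,
        Or.inr (mem_ce.2 (Or.inr ⟨rfl, Or.inl h3.symm⟩)), Or.inl (mem_ce.2 (Or.inl ?_))⟩
      show 2 ^ k ≤ x ∧ x + 1 = x + 1 ∧ x + 1 < 2 ^ (k + 1)
      omega
    · by_cases h5 : x + 1 = 2 ^ (k + 1)
      · refine ⟨hk k, hh, x - 1, hm _ (by omega) (by omega), by omega,
          Or.inr (mem_ce.2 (Or.inr ⟨rfl, Or.inr h5⟩)), Or.inr (mem_ce.2 (Or.inl ?_))⟩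
        show 2 ^ k ≤ x - 1 ∧ x = x - 1 + 1 ∧ x < 2 ^ (k + 1)
        omega
      · refine ⟨x - 1, hm _ (by omega) (by omega), x + 1, hm _ (by omega) (by omega), by omega,
          Or.inr (mem_ce.2 (Or.inl ?_)), Or.inl (mem_ce.2 (Or.inl ?_))⟩
        · show 2 ^ k ≤ x - 1 ∧ x = x - 1 + 1 ∧ x < 2 ^ (k + 1)
          omega
        · show 2 ^ k ≤ x ∧ x + 1 = x + 1 ∧ x + 1 < 2 ^ (k + 1)
          omega

theorem C_symm {a b : ℕ} (h : C a b) : C b a := Or.symm h

/-- the cycle is mapped to itself -/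
theorem img (hdeg : S_deg2) {k : ℕ} (hk2 : 2 ≤ k) {φ : ℕ → ℕ} (hφ : Function.Injective φ)
    (h : ∀ p ∈ ce k, C (φ p.1) (φ p.2)) : (cyc k).image φ = cyc k := by
  have hcard : ((cyc k).image φ).card = 2 ^ k + 1 := by
    rw [Finset.card_image_of_injective _ hφ, card_cyc]
  have hne : ((cyc k).image φ).Nonempty := by
    rw [← Finset.card_pos, hcard]
    exact Nat.succ_pos _
  obtain ⟨K, hK2, hK1, hK3⟩ := hdeg ((cyc k).image φ) hne (by
    intro a ha
    obtain ⟨x, hx, rfl⟩ := Finset.mem_image.1 ha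
    obtain ⟨y, hy, y', hy', hne, h1, h2⟩ := two_nb hk2 hx
    have key : ∀ z, ((x, z) ∈ ce k ∨ (z, x) ∈ ce k) → C (φ x) (φ z) := by
      intro z hz
      rcases hz with hz | hz
      · exact h _ hz
      · exact C_symm (h _ hz)
    exact ⟨φ y, Finset.mem_image_of_mem _ hy, φ y', Finset.mem_image_of_mem _ hy',
      fun e => hne (hφ e), key y h1, key y' h2⟩)
  have h1 : 2 ^ K + 1 ≤ 2 ^ k + 1 := by
    rw [← card_cyc K, ← hcard]
    exact Finset.card_le_card hK1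
  have h2 : 2 ^ k + 1 ≤ 2 ^ (K + 1) := by
    rw [← hcard, ← Finset.card_range (2 ^ (K + 1))]
    exact Finset.card_le_card fun a ha => Finset.mem_range.2 (hK3 a ha)
  have h3 : K ≤ k := (Nat.pow_le_pow_iff_right (by norm_num : 1 < 2)).1 (by omega)
  have h4 : k < K + 1 := (Nat.pow_lt_pow_iff_right (by norm_num : 1 < 2)).1 (by omega)
  have h5 : K = k := by omega
  subst h5
  exact (Finset.eq_of_subset_of_card_le hK1 (by rw [hcard, card_cyc])).symm

/-- MO-CYC -/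
theorem s_cycpin : S_deg2 → S_cycpin := by
  intro hdeg F hF v
  obtain ⟨M, hM⟩ := (hF.image Prod.snd).bddAbove
  have hMF : ∀ p ∈ F, p.2 ≤ M := fun p hp => hM ⟨p, hp, rfl⟩
  set k := Nat.pair v (M + 2) with hkd
  set k' := Nat.pair v (k + 1) with hkd'
  have hk : M + 2 ≤ k := Nat.right_le_pair _ _
  have hk' : k + 1 ≤ k' := Nat.right_le_pair _ _
  have hv : Pool.Agent.Q215.Mo.hk k = v := by
    unfold Pool.Agent.Q215.Mo.hk
    rw [hkd, Nat.unpair_pair]
  have hv' : Pool.Agent.Q215.Mo.hk k' = v := by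
    unfold Pool.Agent.Q215.Mo.hk
    rw [hkd', Nat.unpair_pair]
  refine ⟨ce k ∪ ce k', ?_, ?_⟩
  · intro p hp
    rw [Finset.mem_union] at hp
    rcases hp with hp | hp
    · refine ⟨Or.inl (ce_Cb (by omega) hp), fun hpF => ?_⟩
      have h1 := ce_lt hp
      have h2 := hMF p hpF
      omega
    · refine ⟨Or.inl (ce_Cb (by omega) hp), fun hpF => ?_⟩
      have h1 := ce_lt hp
      have h2 := hMF p hpF
      omega
  · intro φ hφ h
    have h1 := img hdeg (k := k) (by omega) hφ fun p hp => h p (Finset.mem_union_left _ hp)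
    have h2 := img hdeg (k := k') (by omega) hφ fun p hp => h p (Finset.mem_union_right _ hp)
    have m1 : φ v ∈ cyc k := by
      rw [← h1]
      refine Finset.mem_image_of_mem _ ?_
      unfold cyc
      rw [hv]
      exact Finset.mem_insert_self _ _
    have m2 : φ v ∈ cyc k' := by
      rw [← h2]
      refine Finset.mem_image_of_mem _ ?_
      unfold cyc
      rw [hv']
      exact Finset.mem_insert_self _ _
    unfold cyc at m1 m2
    rw [Finset.mem_insert, Finset.mem_Ico, hv] at m1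
    rw [Finset.mem_insert, Finset.mem_Ico, hv'] at m2
    rcases m1 with m1 | m1
    · exact m1
    · rcases m2 with m2 | m2
      · exact m2
      · exfalso
        have h3 : 2 ^ (k + 1) ≤ 2 ^ k' := Nat.pow_le_pow_right (by norm_num) hk'
        omega

end Pool.Agent.Q95.MO
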