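import Pool.Agent.Q215.Mo.Defs

/-!
# Project MO, job DEG: finite sets of vertices of the cactus with two neighbours
-/

set_option autoImplicit false

namespace Pool.Agent.Q95.MO

open Pool.Agent.Q215.Mo

theorem hk_le (k : ℕ) : hk k ≤ k := Nat.unpair_left_le k

theorem hk_lt (k : ℕ) : hk k < 2 ^ k := lt_of_le_of_lt (hk_le k) Nat.lt_two_pow_self

theorem blk {k n : ℕ} (h1 : 2 ^ k ≤ n) (h2 : n < 2 ^ (k + 1)) : Nat.log 2 n = k :=
  Nat.log_eq_of_pow_le_of_lt_pow h1 h2

theorem two_pow_succ' (k : ℕ) : 2 ^ (k + 1) = 2 * 2 ^ k := by ring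

/-- neighbours in a block -/
theorem nb {k n m : ℕ} (h1 : 2 ^ k ≤ n) (h2 : n < 2 ^ (k + 1)) (h3 : m < 2 ^ (k + 1))
    (h : C n m) : m = n + 1 ∨ (m + 1 = n ∧ 2 ^ k ≤ m) ∨
      (m = hk k ∧ (n = 2 ^ k ∨ n + 1 = 2 ^ (k + 1))) := by
  rcases h with ⟨k', hk2, h | h⟩ | ⟨k', hk2, h | h⟩
  · exact Or.inl h.2.1
  · exfalso
    have h4 : 2 ^ k' ≤ m := by
      have h5 := two_pow_succ' k'
      have h6 : 0 < 2 ^ k' := by positivity
      rcases h.2 with h7 | h7 <;> omega
    have h5 : k' < k + 1 := (Nat.pow_lt_pow_iff_right (by norm_num : 1 < 2)).1 (h4.trans_lt h3)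
    have h6 := hk_le k'
    have h7 : k < 2 ^ k := Nat.lt_two_pow_self
    have h8 := h.1
    omega
  · have h4 : Nat.log 2 n = k := blk h1 h2
    have h5 : Nat.log 2 n = k' := blk (by omega) h.2.2
    have h6 : k' = k := by omega
    subst h6
    exact Or.inr (Or.inl ⟨h.2.1.symm, h.1⟩)
  · have h0 : 0 < 2 ^ k' := by positivity
    have h9 := two_pow_succ' k'
    have h4 : Nat.log 2 n = k := blk h1 h2
    have h5 : Nat.log 2 n = k' := blk (by rcases h.2 with h7 | h7 <;> omega)
      (by rcases h.2 with h7 | h7 <;> omega)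
    have h6 : k' = k := by omega
    subst h6
    exact Or.inr (Or.inr ⟨h.1, h.2⟩)

/-- MO-DEG -/
theorem s_deg2 : S_deg2 := by
  intro S hS hdeg
  set w := S.max' hS with hw
  have hwS : w ∈ S := S.max'_mem hS
  have hle : ∀ a ∈ S, a ≤ w := fun a ha => S.le_max' a ha
  -- the greatest element
  have hw4 : 4 ≤ w := by
    obtain ⟨b, hb, -, -, -, hC, -⟩ := hdeg w hwS
    have hbw := hle b hb
    have hp : ∀ k, 2 ≤ k → 4 ≤ 2 ^ k := fun k hk => by
      have := Nat.pow_le_pow_right (show 0 < 2 by norm_num) hk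
      simpa using this
    rcases hC with ⟨k, hk2, h | h⟩ | ⟨k, hk2, h | h⟩
    · exact (hp k hk2).trans h.1
    · have h4 := hp k hk2
      have h5 := two_pow_succ' k
      rcases h.2 with h7 | h7 <;> omega
    · exact (hp k hk2).trans (h.1.trans hbw)
    · have h4 := hp k hk2
      have h5 := two_pow_succ' k
      rcases h.2 with h7 | h7 <;> omega
  set k := Nat.log 2 w with hkd
  have hk2 : 2 ≤ k := Nat.le_log_of_pow_le (by norm_num) (by simpa using hw4)
  have hk1 : 2 ^ k ≤ w := Nat.pow_log_le_self 2 (by omega)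
  have hk3 : w < 2 ^ (k + 1) := Nat.lt_pow_succ_log_self (by norm_num) w
  have hlt : ∀ a ∈ S, a < 2 ^ (k + 1) := fun a ha => (hle a ha).trans_lt hk3
  -- the neighbours of the greatest element
  have key : w + 1 = 2 ^ (k + 1) ∧ w - 1 ∈ S ∧ hk k ∈ S := by
    obtain ⟨b, hb, b', hb', hne, hC, hC'⟩ := hdeg w hwS
    have h1 := nb hk1 hk3 (hlt b hb) hC
    have h1' := nb hk1 hk3 (hlt b' hb') hC'
    have h2 := hle b hb
    have h2' := hle b' hb'
    rcases h1 with h1 | h1 | h1
    · omega
    · rcases h1' with h3 | h3 | h3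
      · omega
      · omega
      · refine ⟨by omega, ?_, by rw [← h3.1]; exact hb'⟩
        have : w - 1 = b := by omega
        rw [this]
        exact hb
    · rcases h1' with h3 | h3 | h3
      · omega
      · refine ⟨by omega, ?_, by rw [← h1.1]; exact hb⟩
        have : w - 1 = b' := by omega
        rw [this]
        exact hb'
      · exact absurd (h1.1.trans h3.1.symm) hne
  have step : ∀ n, 2 ^ k ≤ n → n + 1 ≤ w → n + 1 ∈ S → n ∈ S := by
    intro n h1 h2 h3
    rcases Nat.eq_or_lt_of_le h2 with h4 | h4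
    · have : n = w - 1 := by omega
      rw [this]
      exact key.2.1
    · obtain ⟨b, hb, b', hb', hne, hC, hC'⟩ := hdeg (n + 1) h3
      have h5 := nb (k := k) (by omega) (by omega) (hlt b hb) hC
      have h5' := nb (k := k) (by omega) (by omega) (hlt b' hb') hC'
      rcases h5 with h5 | h5 | h5
      · rcases h5' with h6 | h6 | h6
        · omega
        · have : n = b' := by omega
          rw [this]
          exact hb'
        · omega
      · have : n = b := by omega
        rw [this]
        exact hb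
      · omega
  have all : ∀ j, ∀ n, n + j = w → 2 ^ k ≤ n → n ∈ S := by
    intro j
    induction j with
    | zero =>
      intro n hn _
      have : n = w := by omega
      rw [this]
      exact hwS
    | succ j ih =>
      intro n hn h1
      exact step n h1 (by omega) (ih (n + 1) (by omega) (by omega))
  refine ⟨k, hk2, ?_, hlt⟩
  intro a ha
  unfold cyc at ha
  rw [Finset.mem_insert, Finset.mem_Ico] at ha
  rcases ha with rfl | ha
  · exact key.2.2
  · exact all (w - a) a (by omega) ha.1

end Pool.Agent.Q95.MO
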